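import Pool.Agent.Helper74.DI.StM

/-! Project DI (MP_26f0da_lc), module STB: reading a letter. -/

set_option autoImplicit false

namespace Pool.Agent.Helper73.DI

open Pool.Agent.Helper74 Pool.Agent.Helper74.DI

private theorem key (w : List Op) (e : Bool) (o : Bool → Bool) (j : ℕ) (v : Bool → ℕ) (t μ : ℕ)
    (a : Op) (ha : w[j]? = some a) (lo : Lo) (e' : Bool)
    (h : ∀ rd : Hd → Bool × Option Op, (rd .J).2 = some a →
      dm (.sc, e, o) rd = ((lo, e', o), mk 2 (fun _ _ => 1) (fun _ => 1))) :
    sth dm w (cf .sc e o (j + 1) v t μ) = cf lo e' o (j + 2) v t μ := by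
  have hj : j < w.length := (List.getElem?_eq_some_iff.1 ha).1
  have h1 := h (fun i => (decide ((cf .sc e o (j + 1) v t μ).2 i = 0),
    w[(cf .sc e o (j + 1) v t μ).2 i - 1]?)) (by simpa [cf] using ha)
  have h2 : dm (cf .sc e o (j + 1) v t μ).1 (fun i => (decide ((cf .sc e o (j + 1) v t μ).2 i = 0),
    w[(cf .sc e o (j + 1) v t μ).2 i - 1]?)) = ((lo, e', o), mk 2 (fun _ _ => 1) (fun _ => 1)) := h1
  unfold sth
  rw [h2]
  refine Prod.ext rfl ?_
  funext i
  cases i with
  | J =>
    simp only [mk, cf]
    have : min (j + 1 + 1) (w.length + 1) = j + 2 := by omega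
    simp [this]
  | R r c => simp [mk, cf]
  | T c => simp [mk, cf]

theorem hSTB : StSTB := by
  intro w e o j v t μ
  refine ⟨?_, ?_, ?_, ?_, ?_⟩
  · have h2 : dm (cf .sc e o (w.length + 1) v t μ).1
        (fun i => (decide ((cf .sc e o (w.length + 1) v t μ).2 i = 0),
          w[(cf .sc e o (w.length + 1) v t μ).2 i - 1]?)) = ((.ck, e, o), fun _ => 1) := by
      have h3 : w[(cf .sc e o (w.length + 1) v t μ).2 .J - 1]? = none := by
        simp [cf]
      change dm (.sc, e, o) _ = _
      simp only [dm, h3]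
    unfold sth
    rw [h2]
    refine Prod.ext rfl ?_
    funext i
    cases i <;> simp [cf]
  · intro h
    refine key w e o j v t μ .nop h _ _ fun rd hrd => ?_
    simp only [dm, hrd]
  · intro h
    refine key w e o j v t μ .tog h _ _ fun rd hrd => ?_
    simp only [dm, hrd]
  · intro x s h
    refine key w false o j v t μ (.op x s) h _ _ fun rd hrd => ?_
    simp only [dm, hrd]
    simp
  · intro x s h
    refine key w true o j v t μ (.op x s) h _ _ fun rd hrd => ?_
    simp only [dm, hrd]
    simp

end Pool.Agent.Helper73.DI
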